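import Pool.Agent.Q193.LT.Cyc

/-!
# The generalized Tate conjecture and the cubic hypersurfaces `T(x, y, z) = 1`

Let `K` be a finite field or a number field and `ℓ` a prime number different from the characteristic.
The geometric coniveau `N^ν H^i(M)` and the Galois coniveau `N^ν_ℓ H^i(M)` are additive functors of Chow
motives `M` over `K` (for `ν < 0` both are the whole space `H^i(M)`). For a separated scheme `X` of
finite type over `K` let `W(X)` be its weight complex (Gillet, Soulé; Bondarko), a bounded complex of Chow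
motives, with `W(X) = h(X)` for smooth projective `X`. For `w ∈ ℤ` and `ν, m ∈ ℤ` let

* `(C w).A (ν, m) X = H^m(N^ν H^{w+2ν}(W(X)))`;
* `(C w).B (ν, m) X = H^m(N^ν_ℓ H^{w+2ν}(W(X)))`,

and let `(C w).ρ` be the map given by the inclusion `N^ν ⊆ N^ν_ℓ`. For smooth projective `Y` the groups
for `m ≠ 0` are zero and the map for `m = 0` is the inclusion
`N^ν H^i(Y) ⊆ N^ν_ℓ H^i(Y)`, `i = w + 2ν`; so `BijAll (C w) Y` is the statement of question Q1 for `Y`
and all `i, ν` with `i - 2ν = w`.

**Theorem.** Let `w` be an integer. (1) The equality of question Q1 is true for all smooth projective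
varieties over `K` and all `i, ν` with `i - 2ν = w` if and only if the maps
`H^m(N^ν H^{w+2ν}(W(Z))) → H^m(N^ν_ℓ H^{w+2ν}(W(Z)))` are isomorphisms for all `ν, m` and the smooth affine
cubic hypersurfaces `Z : T(x, y, z) = 1` of all trilinear forms `T` over `K`. If `K = ℚ` or `K` is a prime
field, it is enough to consider the hypersurfaces `∑_{(i, j, l) ∈ H} x_i y_j z_l = 1` of the finite sets
`H` of triples.

(2) For all `n`, the equality is true for all smooth projective varieties of dimension at most `n` over
`K` and all `i, ν` with `i - 2ν = w` if and only if the maps are isomorphisms for the hypersurfaces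
`T(x, y, z) = 1` such that one of the three blocks of variables has at most `n + 2` variables (the other
two blocks are arbitrary).

(3) Unconditionally, the maps are isomorphisms for the hypersurfaces `T(x, y, z) = 1` such that one of the
three blocks of variables has at most three variables.
-/

set_option autoImplicit false

open CategoryTheory CategoryTheory.Limits AlgebraicGeometry Pool.Agent.Y116.UV Pool.Agent.Z125.UN
  Pool.Agent.Q193.LT

universe w

namespace Pool.Agent.Results.MP_8abef2_ag.ConiveauCubics

variable {K : Type} [Field K] {ℓ : ℕ} [Fact ℓ.Prime]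

/-- The maps are isomorphisms for all smooth projective schemes of dimension at most `n`. -/
def Proj (C : PairData.{w} K (ℤ × ℤ) ℚ_[ℓ]) (n : ℕ) : Prop :=
  ∀ Y : Sch K, SmoothProj Y → topologicalKrullDim Y.left ≤ n → BijAll C Y

/-- The maps are isomorphisms for all hypersurfaces `T = 1` with a block of at most `m` variables. -/
def Forms (C : PairData.{w} K (ℤ × ℤ) ℚ_[ℓ]) (m : ℕ) : Prop :=
  ∀ (a b c : ℕ) (T : Fin a → Fin b → Fin c → K), (a ≤ m ∨ b ≤ m ∨ c ≤ m) → BijAll C (hypS T)

/-- **The generalized Tate conjecture and cubic hypersurfaces.** See the explanations above. The cases of the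
point and of curves are trivial. -/
theorem result [PerfectField K] (_hK : Finite K ∨ NumberField K) (_hℓ : (ℓ : K) ≠ 0) {C : ℤ → PairData.{w} K (ℤ × ℤ) ℚ_[ℓ]}
    (hC : ∀ w, IsWeightPair (C w)) (hg : ∀ w, WeightGen (C w))
    (point : ∀ w, BijAll (C w) (aff K K)) (curves : ∀ w, Proj (C w) 1) :
    (∀ w : ℤ, (∀ Y : Sch K, SmoothProj Y → BijAll (C w) Y) ↔
      ∀ (a b c : ℕ) (T : Fin a → Fin b → Fin c → K), BijAll (C w) (hypS T)) ∧
    (Frac K → ∀ w : ℤ, (∀ Y : Sch K, SmoothProj Y → BijAll (C w) Y) ↔
      ∀ (a b c : ℕ) (H : Finset (Fin a × Fin b × Fin c)), BijAll (C w) (tripS K H)) ∧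
    (∀ (w : ℤ) (n : ℕ), Proj (C w) n ↔ Forms (C w) (n + 2)) ∧
    ∀ w : ℤ, Forms (C w) 3 :=
  ⟨fun w => wg_all (hg w) (hC w) (point w), fun hK w => wg_graph (hg w) (hC w) (point w) hK,
    fun w n => wg_dim (hg w) (hC w) (point w) n,
    fun w => (wg_dim (hg w) (hC w) (point w) 1).mp (curves w)⟩

end Pool.Agent.Results.MP_8abef2_ag.ConiveauCubics
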