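import Pool.Agent.Q49.WU.Pair

/-!
# The generalized Tate conjecture for one degree `i` and one coniveau `ν`, and cubic hypersurfaces

Let `K` be a finite field or a number field and `ℓ` a prime number different from the characteristic.
The geometric coniveau `N^ν H^i(M)` and the Galois coniveau `N^ν_ℓ H^i(M)` are additive functors of
effective Chow motives `M` over `K` (for `ν ≤ 0` both are the whole space `H^i(M)`). For a separated
scheme `X` of finite type over `K` let `W(X)` be its weight complex (Gillet, Soulé; Bondarko), a bounded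
complex of effective Chow motives, with `W(X) = h(X)` for smooth projective `X`. For `w ∈ ℤ` and `ν, m ∈ ℤ` let

* `(C w).A (ν, m) X = H^m(N^ν H^{w+2ν}(W(X)))`;
* `(C w).B (ν, m) X = H^m(N^ν_ℓ H^{w+2ν}(W(X)))`,

and let `(C w).ρ` be the map given by the inclusion `N^ν ⊆ N^ν_ℓ`. For smooth projective `Y` the groups
for `m ≠ 0` are zero and the map for `m = 0` is the inclusion
`N^ν H^i(Y) ⊆ N^ν_ℓ H^i(Y)`, `i = w + 2ν`. So `Equal (C w) ν Y` is the statement of question Q1 for `Y`,
`ν` and `i = w + 2ν`; for other schemes it says that the maps are isomorphisms for these `w`, `ν` and all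
`m`.

**Theorem.** Let `i` and `ν` be integers and `w = i - 2ν`. (1) The equality `N^ν H^i(Y) = N^ν_ℓ H^i(Y)` is
true for all smooth projective varieties `Y` over `K`, for this one `i` and this one `ν`, if and only if the
maps `H^m(N^{ν+a-1} H^{i+2(a-1)}(W(Z))) → H^m(N^{ν+a-1}_ℓ H^{i+2(a-1)}(W(Z)))` are isomorphisms for all `m`
and the smooth affine cubic hypersurfaces `Z : T(x, y, z) = 1` of all trilinear forms `T` over `K` in `a`
variables `x_p` and any numbers of variables `y_q`, `z_r`.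

(2) If `K = ℚ` or `K` is a prime field, it is enough to consider the hypersurfaces
`∑_{(p, q, r) ∈ H} x_p y_q z_r = 1` of the finite sets `H` of triples.

(3) Unconditionally, for all `i`, `m` and all forms `T` in `a` variables `x_p`, the maps
`H^m(N^ν H^i(W(Z))) → H^m(N^ν_ℓ H^i(W(Z)))` are isomorphisms if `ν ≤ a - 1` or `i < 2ν`.
-/

set_option autoImplicit false

open CategoryTheory CategoryTheory.Limits AlgebraicGeometry Pool.Agent.Y116.UV Pool.Agent.Z125.UN
  Pool.Agent.Q193.LT Pool.Agent.Q49.WU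

universe w

namespace Pool.Agent.Results.MP_8abef2_ag.DegreeAndConiveau

variable {K : Type} [Field K] {ℓ : ℕ} [Fact ℓ.Prime]

/-- The maps of coniveau `ν` are isomorphisms. -/
def Equal (C : PairData.{w} K (ℤ × ℤ) ℚ_[ℓ]) (ν : ℤ) (X : Sch K) : Prop := BijAt C Prod.fst ν X

/-- **The generalized Tate conjecture for one degree and one coniveau, and cubic hypersurfaces.** See the
explanations above. `small` are the trivial cases: both sides are everything for `ν ≤ 0` and zero for
`i < 2ν`. -/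
theorem result [PerfectField K] (_hK : Finite K ∨ NumberField K) (_hℓ : (ℓ : K) ≠ 0)
    {C : ℤ → PairData.{w} K (ℤ × ℤ) ℚ_[ℓ]} (hC : ∀ w, IsWeightPair (C w))
    (hg : ∀ w, GenAt (C w) Prod.fst) (point : ∀ w, BijAll (C w) (aff K K))
    (small : ∀ (i ν : ℤ), ν ≤ 0 ∨ i < 2 * ν → ∀ Y : Sch K, SmoothProj Y →
      Equal (C (i - 2 * ν)) ν Y) :
    (∀ i ν : ℤ, (∀ Y : Sch K, SmoothProj Y → Equal (C (i - 2 * ν)) ν Y) ↔
      ∀ (a b c : ℕ) (T : Fin a → Fin b → Fin c → K),
        Equal (C (i - 2 * ν)) (ν + (a - 1)) (hypS T)) ∧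
    (Frac K → ∀ i ν : ℤ, (∀ Y : Sch K, SmoothProj Y → Equal (C (i - 2 * ν)) ν Y) ↔
      ∀ (a b c : ℕ) (H : Finset (Fin a × Fin b × Fin c)),
        Equal (C (i - 2 * ν)) (ν + (a - 1)) (tripS K H)) ∧
    ∀ (i ν : ℤ) (a b c : ℕ) (T : Fin a → Fin b → Fin c → K), ν ≤ a - 1 ∨ i < 2 * ν →
      Equal (C (i - 2 * ν)) ν (hypS T) := by
  have h1 := fun i ν : ℤ =>
    sp_at_iff (hg (i - 2 * ν)) (hC (i - 2 * ν)) graded_weight (point (i - 2 * ν)) ν
  refine ⟨h1, fun hF i ν =>
    sp_at_graph (hg (i - 2 * ν)) (hC (i - 2 * ν)) graded_weight (point (i - 2 * ν)) hF ν, ?_⟩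
  intro i ν a b c T hν
  have h2 : i - 2 * (a - 1) - 2 * (ν - (a - 1)) = i - 2 * ν := by ring
  have h3 := (h1 (i - 2 * (a - 1)) (ν - (a - 1))).mp
    (small _ _ (by omega)) a b c T
  rw [h2, sub_add_cancel] at h3
  exact h3

end Pool.Agent.Results.MP_8abef2_ag.DegreeAndConiveau
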