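import Pool.Agent.Q135.GP.Top

/-!
# The generalized Tate conjecture for products of varieties with independent Frobenius eigenvalues

`X 0`, ..., `X n` are smooth projective varieties over an algebraic closure of a finite field,
defined over a field with `q` elements; `prodF n X` is their product, `pw X m` is the power of `X`
with `m + 1` factors, and `GTCIn Φ X i ν` is the generalized Tate conjecture for `H^i(X)` and
coniveau `ν`: the Galois coniveau (the generalised eigenspaces of Frobenius for the eigenvalues `α`
such that `α / q ^ ν` is an algebraic integer) is contained in the geometric coniveau.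

`IsEig Φ X s α`: `α` is an eigenvalue of the `q`-Frobenius endomorphism on the cohomology of `X`,
where `q = card Φ X s`. `IntLevel p q α`: the smallest slope of `α` at the places above `p` (for
`v(q) = 1`) is an integer. `HasWeilPolys Φ X D`: the Frobenius polynomials of `X` are integral Weil
polynomials with slopes in `(1/D) ℤ`; so all slopes are integers if `D = 1`, for example if `X` is
ordinary.

1. Let the smallest slopes of the eigenvalues be integral for all `X j` but the last one, and let the
eigenvalues be independent: for each choice of eigenvalues `α j` of `X j` the degree of the field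
`ℚ(α 0, ..., α n)` is the product of the degrees of the fields `ℚ(α j)`. Then the generalized Tate
conjecture (in all degrees, for all coniveaus) holds for the product of the `X j` if and only if it
holds for all `X j`.

2. Let all slopes be integers for all `X j` but the last one, and let the fields generated by the
eigenvalues of `X j` be independent (the degree of their compositum is the product of the degrees).
Then the generalized Tate conjecture holds for the product of any powers of the `X j` if and only if
it holds for these powers.

3. Let all slopes of `X` be integers and let `Y` be a variety for which the eigenvalues of the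
`q`-Frobenius endomorphism are rational numbers (supersingular, `q` large). Then the generalized
Tate conjecture holds for `X ^ m × Y ^ l` if and only if it holds for `X ^ m` and `Y ^ l`.
-/

open CategoryTheory AlgebraicGeometry

universe u v

namespace Pool.Agent.Results.MP_8abef2_ag.IndependentProducts

open Module Pool.Agent.H914 Pool.Agent.W534 VarClass Obj WeilCohomology Pool.Agent.Y163
open Pool.Agent.Q68.FD Pool.Agent.Q68.GT Pool.Agent.Q135.GP

variable {k : Type u} [Field k] {𝒱 : VarClass k} {ops : CycleOps 𝒱}

section

variable {W : WeilCohomology.{u, v} ops} {p : ℕ} [Fact p.Prime] (Φ : FrobSystem W p)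

/-- Statement 1: independent eigenvalues. -/
def IndependentEigenvaluesStatement : Prop :=
  ∀ (n : ℕ) (X : Fin (n + 1) → 𝒱.Obj) (D s : Fin (n + 1) → ℕ) (q : ℕ), IsFamily Φ X D s q →
    (∀ j, j ≠ Fin.last n → HasIntegralLevels Φ (X j) (s j) q) → IndependentEigenvalues Φ X s →
    (GTC Φ (prodF n X) ↔ ∀ j, GTC Φ (X j))

/-- Statement 2: powers, independent fields. -/
def IndependentFieldsStatement : Prop :=
  ∀ (n : ℕ) (X : Fin (n + 1) → 𝒱.Obj) (D s : Fin (n + 1) → ℕ) (q : ℕ), IsFamily Φ X D s q →
    (∀ j, j ≠ Fin.last n → D j = 1) → IndependentFields Φ X s →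
    ∀ m : Fin (n + 1) → ℕ, GTC Φ (prodF n fun j => pw (X j) (m j)) ↔ ∀ j, GTC Φ (pw (X j) (m j))

/-- Statement 3: products with supersingular varieties. -/
def SupersingularStatement : Prop :=
  ∀ (X Y : 𝒱.Obj) (s t D q : ℕ), 0 < s → 0 < t → card Φ X s = q → card Φ Y t = q →
    HasWeilPolys Φ X 1 → HasWeilPolys Φ Y D → HasBigDivisor ops X → HasBigDivisor ops Y →
    (∀ β, IsEig Φ Y t β → ∃ r : ℚ, β = (r : W.K)) →
    ∀ m l : ℕ, GTC Φ ((pw X m).prod (pw Y l)) ↔ GTC Φ (pw X m) ∧ GTC Φ (pw Y l)

end

theorem result (W : WeilCohomology.{u, v} ops) [IsAlgClosed W.K] {p : ℕ} [Fact p.Prime]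
    (Φ : FrobSystem W p) :
    IndependentEigenvaluesStatement Φ ∧ IndependentFieldsStatement Φ ∧
      SupersingularStatement Φ := by
  refine ⟨fun n X D s q hF hlev hind => ?_, fun n X D s q hF hslope hind m => ?_,
    fun X Y s t D q hs ht hX hY hwX hwY hbX hbY hrat m l =>
      super hs ht hX hY hwX hwY hbX hbY hrat m l⟩
  · obtain ⟨E, hE, rfl, hcard⟩ := level_eq hF.pos hF.card_eq
    exact tuples hE X D s hF.pos hcard hF.weil hF.big hlev (indep_eig hind)
  · obtain ⟨E, hE, rfl, hcard⟩ := level_eq hF.pos hF.card_eq
    exact powers hE X D s hF.pos hcard hF.weil hF.big hslope (indep_fields hind) m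

end Pool.Agent.Results.MP_8abef2_ag.IndependentProducts
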