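import Pool.Agent.Q68.GT.Main

/-!
# The generalized Tate conjecture for all powers of a variety follows from boundedly many powers

Let `X` be any smooth projective variety over (the algebraic closure of) a finite field, of dimension
`d`, with the sum of the Betti numbers at most `b`. Let `D` be a common denominator of the slopes of
the Frobenius endomorphism on the cohomology of `X`. (By the theorems of Dieudonné and Manin and of
Katz and Messing one can always take `D = b !`.) Put `A = D (2 d + 1)`, `R = (A + 1) ^ b` and
`N = (2 R A + 1) ^ R`.

If the generalized Tate conjecture, in all degrees `i` and for all coniveaus `ν`, holds for the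
powers of `X` with at most `N` factors, then it holds for all powers of `X`, in all degrees `i` and
for all coniveaus `ν`. The number `N` does not depend on `p`, `q` and `X`, but only on `b`, `D`, `d`
(with `D = b !`: only on the Betti numbers).

The geometric coniveau filtration `N^ν H^i(X)` is `geoConiv`, the span of the images of the
correspondences of degree `ν`; the Galois coniveau filtration is the sum of the generalised
eigenspaces of Frobenius for the eigenvalues `α` in `H^i(X)` such that `α / q ^ ν` is an algebraic
integer. (These are the subrepresentations `V` such that `V(ν)` is effective.)

Proof: the cohomology of `X ^ n` has a basis of products of generalised eigenvectors on the factors;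
such a product has Galois coniveau at least `ν` if and only if at all places the sum of the slopes is
at least `ν`. Adding slack vectors, which are minus the unit vectors, and `ν` times the vector
`(- 1, ..., - 1)`, one obtains a family of integral vectors with sum zero, in a space of bounded
dimension as there are few different places. By the lemma of Steinitz some short subfamily has sum
zero; so the product is a product of two factors, one of which is short, whose Galois coniveaus have
sum at least `ν`. The geometric coniveau filtration is functorial and multiplicative.
-/

open CategoryTheory AlgebraicGeometry

universe u v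

namespace Pool.Agent.Results.MP_8abef2_ag.UniformDetermination

open Module
open Pool.Agent.H914 Pool.Agent.H914.VarClass Pool.Agent.H914.VarClass.Obj
  Pool.Agent.H914.WeilCohomology Pool.Agent.W534 Pool.Agent.Y163 Pool.Agent.Q68.FD
  Pool.Agent.Q68.GT

variable {k : Type u} [Field k] {𝒱 : VarClass k} {ops : CycleOps 𝒱}

theorem result (W : WeilCohomology.{u, v} ops) [IsAlgClosed W.K] {p : ℕ} [Fact p.Prime]
    (Φ : FrobSystem W p) (X : 𝒱.Obj) {b D : ℕ} (hb : finrank W.K (W.H X) ≤ b) (hD : 0 < D)
    (hX : HasWeilPolys Φ X D)
    (h : ∀ m < boundG b (D * (2 * X.dim + 1)), ∀ i ν, GTCIn Φ (pw X m) i ν) :
    ∀ n i ν, GTCIn Φ (pw X n) i ν :=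
  fun n i ν => gtc_of_short hD hb hX h n i ν

end Pool.Agent.Results.MP_8abef2_ag.UniformDetermination
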